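import Mathlib

/-! Zeros of the signed periodizations of a rapidly decaying real function. -/

open Filter Topology

namespace Pool.Agent.MP_bef260_an.H31

lemma summable_pow_exp_int (p : ℕ) {a : ℝ} (ha : 0 < a) :
    Summable fun k : ℤ => |(k : ℝ)| ^ p * Real.exp (-a * |(k : ℝ)|) := by
  have := Real.summable_pow_mul_exp_neg_nat_mul p ha
  apply Summable.of_nat_of_neg
  · simpa using this
  · simpa using this

lemma summable_exp_int {a : ℝ} (ha : 0 < a) :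
    Summable fun k : ℤ => Real.exp (-a * |(k : ℝ)|) := by
  simpa using summable_pow_exp_int 0 ha

lemma shift_bound {h : ℝ → ℝ} {K : ℝ} (hK0 : 0 ≤ K) (hK : ∀ t, |h t| ≤ K * Real.exp (-|t|))
    {a T t : ℝ} (ha : 0 ≤ a) (ht : |t| ≤ T) (k : ℤ) :
    |h (t + a * k)| ≤ K * Real.exp T * Real.exp (-a * |(k : ℝ)|) := by
  refine (hK _).trans ?_
  rw [mul_assoc, ← Real.exp_add]
  gcongr
  have h1 : |a * k| ≤ |t + a * k| + |t| := by
    have := abs_sub (t + a * k) t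
    simpa using this
  rw [abs_mul, abs_of_nonneg ha] at h1
  linarith

lemma term_bound {h : ℝ → ℝ} {K : ℝ} (hK0 : 0 ≤ K) (hK : ∀ t, |h t| ≤ K * Real.exp (-|t|))
    {s : ℤ → ℝ} (hs : ∀ k, |s k| ≤ 1) {a T t : ℝ} (ha : 0 ≤ a) (ht : |t| ≤ T) (k : ℤ) :
    ‖s k * h (t + a * k)‖ ≤ K * Real.exp T * Real.exp (-a * |(k : ℝ)|) := by
  rw [Real.norm_eq_abs, abs_mul]
  calc |s k| * |h (t + a * k)| ≤ 1 * (K * Real.exp T * Real.exp (-a * |(k : ℝ)|)) :=
        mul_le_mul (hs k) (shift_bound hK0 hK ha ht k) (abs_nonneg _) zero_le_one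
    _ = _ := one_mul _

lemma summable_zak {h : ℝ → ℝ} {K : ℝ} (hK0 : 0 ≤ K) (hK : ∀ t, |h t| ≤ K * Real.exp (-|t|))
    {s : ℤ → ℝ} (hs : ∀ k, |s k| ≤ 1) {a : ℝ} (ha : 0 < a) (t : ℝ) :
    Summable fun k : ℤ => s k * h (t + a * k) :=
  Summable.of_norm_bounded ((summable_exp_int ha).mul_left (K * Real.exp |t|))
    (term_bound hK0 hK hs ha.le le_rfl)

lemma continuous_zak {h : ℝ → ℝ} (hc : Continuous h) {K : ℝ} (hK0 : 0 ≤ K)
    (hK : ∀ t, |h t| ≤ K * Real.exp (-|t|)) {s : ℤ → ℝ} (hs : ∀ k, |s k| ≤ 1) {a : ℝ}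
    (ha : 0 < a) : Continuous fun t : ℝ => ∑' k : ℤ, s k * h (t + a * k) := by
  rw [continuous_iff_continuousAt]
  intro t
  have : ContinuousOn (fun t : ℝ => ∑' k : ℤ, s k * h (t + a * k))
      (Set.Icc (-(|t| + 1)) (|t| + 1)) := by
    refine continuousOn_tsum (u := fun k : ℤ => K * Real.exp (|t| + 1) * Real.exp (-a * |(k : ℝ)|))
      (fun k => ?_) ((summable_exp_int ha).mul_left _) (fun k x hx => ?_)
    · exact Continuous.continuousOn (by fun_prop)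
    · exact term_bound hK0 hK hs ha.le (abs_le.mpr hx) k
  refine this.continuousAt (Icc_mem_nhds ?_ ?_)
  · have := neg_abs_le t; linarith
  · have := le_abs_self t; linarith

lemma zak_approx {h : ℝ → ℝ} {K : ℝ} (hK0 : 0 ≤ K) (hK : ∀ t, |h t| ≤ K * Real.exp (-|t|))
    {s : ℤ → ℝ} (hs : ∀ k, |s k| ≤ 1) (hs0 : s 0 = 1) {a : ℝ} (ha : 1 ≤ a) (t : ℝ) :
    |∑' k : ℤ, s k * h (t + a * k) - h t| ≤
      K * Real.exp |t| * (∑' k : ℤ, Real.exp (-1 * |(k : ℝ)|)) * Real.exp (-(a - 1)) := by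
  have ha0 : 0 < a := by linarith
  rw [(summable_zak hK0 hK hs ha0 t).tsum_eq_add_tsum_ite 0]
  simp only [hs0, Int.cast_zero, mul_zero, add_zero, one_mul, add_sub_cancel_left]
  rw [mul_right_comm, ← tsum_mul_left, ← Real.norm_eq_abs]
  refine tsum_of_norm_bounded ((summable_exp_int one_pos).mul_left _).hasSum (fun k => ?_)
  split_ifs with hk
  · simp only [norm_zero]; positivity
  · refine (term_bound hK0 hK hs ha0.le le_rfl k).trans ?_
    rw [mul_assoc (K * Real.exp |t|), ← Real.exp_add]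
    gcongr
    have h1 : (1 : ℝ) ≤ |(k : ℝ)| := by
      have : (1 : ℤ) ≤ |k| := Int.one_le_abs hk
      exact_mod_cast this
    nlinarith

lemma zak_zeros {h : ℝ → ℝ} (hc : Continuous h) {K : ℝ} (hK0 : 0 ≤ K)
    (hK : ∀ t, |h t| ≤ K * Real.exp (-|t|)) (n : ℕ) {t : ℕ → ℝ} (ht1 : ∀ i < n, t i < t (i + 1))
    (ht2 : ∀ i ≤ n, 0 < (-1) ^ (n + i) * h (t i)) :
    ∀ᶠ a : ℝ in atTop, ∀ s : ℤ → ℝ, (∀ k, |s k| ≤ 1) → s 0 = 1 → ∀ i < n,
      ∃ y ∈ Set.Ioo (t i) (t (i + 1)), ∑' k : ℤ, s k * h (y + a * k) = 0 := by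
  have h1 : ∀ i ∈ Finset.range (n + 1), ∀ᶠ a : ℝ in atTop,
      K * Real.exp |t i| * (∑' k : ℤ, Real.exp (-1 * |(k : ℝ)|)) * Real.exp (-(a - 1)) <
        (-1) ^ (n + i) * h (t i) := by
    intro i hi
    have h2 : Tendsto (fun a : ℝ => K * Real.exp |t i| * (∑' k : ℤ, Real.exp (-1 * |(k : ℝ)|)) *
        Real.exp (-(a - 1))) atTop (𝓝 0) := by
      have := (Real.tendsto_exp_neg_atTop_nhds_zero.comp
        (tendsto_atTop_add_const_right atTop (-1) tendsto_id)).const_mul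
        (K * Real.exp |t i| * (∑' k : ℤ, Real.exp (-1 * |(k : ℝ)|)))
      simpa [sub_eq_add_neg] using this
    exact h2.eventually (gt_mem_nhds (ht2 i (by simpa [Nat.lt_succ_iff] using hi)))
  filter_upwards [(Finset.eventually_all _).mpr h1, eventually_ge_atTop 1] with a ha ha1 s hs hs0 i hi
  have ha0 : 0 < a := by linarith
  have hsign : ∀ j ≤ n, 0 < (-1) ^ (n + j) * ∑' k : ℤ, s k * h (t j + a * k) := by
    intro j hj
    have h3 := ha j (by simpa [Nat.lt_succ_iff] using hj)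
    have h4 := zak_approx hK0 hK hs hs0 ha1 (t j)
    have h5 : |(-1 : ℝ) ^ (n + j) * (∑' k : ℤ, s k * h (t j + a * k) - h (t j))| =
        |∑' k : ℤ, s k * h (t j + a * k) - h (t j)| := by
      rw [abs_mul, abs_pow, abs_neg, abs_one, one_pow, one_mul]
    have h6 := neg_abs_le ((-1 : ℝ) ^ (n + j) * (∑' k : ℤ, s k * h (t j + a * k) - h (t j)))
    rw [h5, mul_sub] at h6
    linarith
  have hcont : Continuous fun y : ℝ => (-1) ^ (n + i) * ∑' k : ℤ, s k * h (y + a * k) :=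
    (continuous_zak hc hK0 hK hs ha0).const_mul _
  have p1 := hsign i hi.le
  have p2 := hsign (i + 1) hi
  have p3 : (-1 : ℝ) ^ (n + i) * ∑' k : ℤ, s k * h (t (i + 1) + a * k) < 0 := by
    rw [← add_assoc, pow_succ] at p2
    linarith
  obtain ⟨y, hy1, hy2⟩ := intermediate_value_Ioo' (ht1 i hi).le hcont.continuousOn ⟨p3, p1⟩
  refine ⟨y, hy1, ?_⟩
  exact (mul_eq_zero.mp hy2).resolve_left (pow_ne_zero _ (by norm_num))

lemma zak_parity {h : ℝ → ℝ} {s : ℤ → ℝ} {e : ℝ} (hpar : ∀ t, h (-t) = e * h t)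
    (hs : ∀ k, s (-1 - k) * e = -s k) (a : ℝ) : ∑' k : ℤ, s k * h (a / 2 + a * k) = 0 := by
  have h1 := (Equiv.subLeft (-1 : ℤ)).tsum_eq (fun k : ℤ => s k * h (a / 2 + a * k))
  have h2 : ∀ k : ℤ, s (Equiv.subLeft (-1 : ℤ) k) * h (a / 2 + a * (Equiv.subLeft (-1 : ℤ) k : ℤ)) =
      -(s k * h (a / 2 + a * k)) := by
    intro k
    simp only [Equiv.subLeft_apply]
    have : a / 2 + a * ((-1 - k : ℤ) : ℝ) = -(a / 2 + a * k) := by push_cast; ring
    rw [this, hpar, ← mul_assoc, hs]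
    ring
  simp only [h2, tsum_neg] at h1
  linarith

end Pool.Agent.MP_bef260_an.H31
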