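import Mathlib
import Pool.Agent.MP_bef260_an.H31.Zak

/-! The test functions (truncated combs of short bumps) and the bound on their Gabor
coefficients along one coset. -/

open Filter Topology MeasureTheory
open scoped ENNReal

namespace Pool.Agent.MP_bef260_an.H31

lemma bessel_piece {F : ℝ → ℂ} (hF : Continuous F) {a ε b : ℝ} (hε : 0 < ε) (hεa : ε ≤ a)
    (hb0 : 0 ≤ b) (hb : ∀ t ∈ Set.Ioc 0 ε, ‖F t‖ ≤ b) :
    ∑' l : ℤ, ENNReal.ofReal
      (‖∫ t in (0 : ℝ)..ε, Complex.exp (-(2 * Real.pi * Complex.I * l * t / a)) * F t‖ ^ 2) ≤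
      ENNReal.ofReal (a * ε * b ^ 2) := by
  have ha : 0 < a := hε.trans_le hεa
  set g : ℝ → ℂ := (Set.Ioc 0 ε).indicator F with hg
  have hgb : ∀ t, ‖g t‖ ≤ b := by
    intro t
    by_cases ht : t ∈ Set.Ioc 0 ε
    · rw [hg, Set.indicator_of_mem ht]; exact hb t ht
    · rw [hg, Set.indicator_of_notMem ht]; simpa using hb0
  have hgm : MemLp g 2 (volume.restrict (Set.Ioc 0 a)) :=
    MemLp.of_bound (hF.aestronglyMeasurable.indicator measurableSet_Ioc) b
      (Eventually.of_forall hgb)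
  have hS := hasSum_sq_fourierCoeffOn ha hgm
  have hcoef : ∀ l : ℤ,
      ∫ t in (0 : ℝ)..ε, Complex.exp (-(2 * Real.pi * Complex.I * l * t / a)) * F t =
        a * fourierCoeffOn ha g l := by
    intro l
    rw [fourierCoeffOn_eq_integral, intervalIntegral.integral_of_le hε.le,
      intervalIntegral.integral_of_le ha.le]
    have e1 : ∀ t : ℝ, fourier (-l) (t : AddCircle (a - 0)) • g t =
        (Set.Ioc 0 ε).indicator
          (fun t : ℝ => Complex.exp (-(2 * Real.pi * Complex.I * l * t / a)) * F t) t := by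
      intro t
      by_cases ht : t ∈ Set.Ioc 0 ε
      · rw [hg, Set.indicator_of_mem ht, Set.indicator_of_mem ht, fourier_coe_apply, smul_eq_mul]
        congr 2
        push_cast
        ring
      · rw [hg, Set.indicator_of_notMem ht, Set.indicator_of_notMem ht, smul_zero]
    simp_rw [e1]
    rw [integral_indicator measurableSet_Ioc, Measure.restrict_restrict measurableSet_Ioc,
      Set.inter_eq_left.mpr (Set.Ioc_subset_Ioc_right hεa), Complex.real_smul, ← mul_assoc]
    have : (a : ℂ) * ((1 / (a - 0) : ℝ) : ℂ) = 1 := by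
      have : (a : ℂ) ≠ 0 := by exact_mod_cast ha.ne'
      push_cast
      field_simp
      ring
    rw [this, one_mul]
  have hint : ∫ x in (0 : ℝ)..a, ‖g x‖ ^ 2 ≤ ε * b ^ 2 := by
    rw [intervalIntegral.integral_of_le ha.le]
    have e1 : ∀ t : ℝ, ‖g t‖ ^ 2 = (Set.Ioc 0 ε).indicator (fun t => ‖F t‖ ^ 2) t := by
      intro t
      by_cases ht : t ∈ Set.Ioc 0 ε
      · rw [hg, Set.indicator_of_mem ht, Set.indicator_of_mem ht]
      · rw [hg, Set.indicator_of_notMem ht, Set.indicator_of_notMem ht]; simp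
    simp_rw [e1]
    rw [integral_indicator measurableSet_Ioc, Measure.restrict_restrict measurableSet_Ioc,
      Set.inter_eq_left.mpr (Set.Ioc_subset_Ioc_right hεa)]
    have h2 := norm_setIntegral_le_of_norm_le_const (μ := volume) (s := Set.Ioc 0 ε)
      (f := fun t => ‖F t‖ ^ 2) (C := b ^ 2) (by simp) (fun t ht => by
        rw [Real.norm_eq_abs, abs_of_nonneg (by positivity)]
        exact pow_le_pow_left₀ (norm_nonneg _) (hb t ht) 2)
    have h3 : volume.real (Set.Ioc 0 ε) = ε := by simp [hε.le]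
    rw [h3, Real.norm_eq_abs] at h2
    have := le_abs_self (∫ t in Set.Ioc 0 ε, ‖F t‖ ^ 2)
    linarith
  have hS2 := hS.mul_left (a ^ 2)
  have e2 : ∀ l : ℤ,
      ‖∫ t in (0 : ℝ)..ε, Complex.exp (-(2 * Real.pi * Complex.I * l * t / a)) * F t‖ ^ 2 =
        a ^ 2 * ‖fourierCoeffOn ha g l‖ ^ 2 := by
    intro l
    rw [hcoef, norm_mul, Complex.norm_real, Real.norm_eq_abs, abs_of_pos ha, mul_pow]
  simp_rw [e2]
  rw [← ENNReal.ofReal_tsum_of_nonneg (fun l => by positivity) hS2.summable, hS2.tsum_eq]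
  apply ENNReal.ofReal_le_ofReal
  rw [smul_eq_mul, sub_zero]
  calc a ^ 2 * (a⁻¹ * ∫ x in (0 : ℝ)..a, ‖g x‖ ^ 2) ≤ a ^ 2 * (a⁻¹ * (ε * b ^ 2)) := by gcongr
    _ = a * ε * b ^ 2 := by field_simp

/-- the truncated comb of bumps -/
noncomputable def comb (a ε : ℝ) (N : ℕ) (t : ℝ) : ℝ :=
  ∑ k ∈ Finset.Ico (0 : ℤ) N, (Set.Ioc (a * k) (a * k + ε)).indicator (fun _ => (1 : ℝ)) t

lemma comb_memLp (a ε : ℝ) (N : ℕ) : MemLp (fun t => (comb a ε N t : ℂ)) 2 volume := by
  have : MemLp (fun t => ∑ k ∈ Finset.Ico (0 : ℤ) N,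
      (Set.Ioc (a * k) (a * k + ε)).indicator (fun _ => (1 : ℝ)) t) 2 volume :=
    memLp_finsetSum _ fun k _ => memLp_indicator_const 2 measurableSet_Ioc 1 (Or.inr (by simp))
  exact MemLp.ofReal (K := ℂ) this

lemma comb_norm (a : ℝ) {ε : ℝ} (hε : 0 < ε) (N : ℕ) :
    N * ε ≤ ∫ t, ‖(comb a ε N t : ℂ)‖ ^ 2 := by
  have hint : ∀ k ∈ Finset.Ico (0 : ℤ) N, Integrable
      ((Set.Ioc (a * k) (a * k + ε)).indicator (fun _ => (1 : ℝ))) volume := by
    intro k _
    exact (integrable_indicator_iff measurableSet_Ioc).mpr (integrableOn_const (by simp))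
  have h1 : ∫ t, comb a ε N t = N * ε := by
    unfold comb
    rw [integral_finsetSum _ hint]
    have : ∀ k ∈ Finset.Ico (0 : ℤ) N,
        ∫ t, (Set.Ioc (a * k) (a * k + ε)).indicator (fun _ => (1 : ℝ)) t = ε := by
      intro k _
      rw [integral_indicator measurableSet_Ioc]
      simp [hε.le]
    rw [Finset.sum_congr rfl this]
    simp
  rw [← h1]
  apply integral_mono
  · exact integrable_finsetSum _ hint
  · exact (memLp_two_iff_integrable_sq_norm (comb_memLp a ε N).1).mp (comb_memLp a ε N)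
  · intro t
    simp only [Complex.norm_real, Real.norm_eq_abs, sq_abs]
    have hnn : ∀ k ∈ Finset.Ico (0 : ℤ) N,
        0 ≤ (Set.Ioc (a * k) (a * k + ε)).indicator (fun _ => (1 : ℝ)) t :=
      fun k _ => Set.indicator_nonneg (fun _ _ => zero_le_one) t
    by_cases h : ∃ k ∈ Finset.Ico (0 : ℤ) N, t ∈ Set.Ioc (a * k) (a * k + ε)
    · obtain ⟨k, hk, hkt⟩ := h
      have := Finset.single_le_sum hnn hk
      rw [Set.indicator_of_mem hkt] at this
      have h2 : 1 ≤ comb a ε N t := this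
      nlinarith
    · push Not at h
      have : comb a ε N t = 0 :=
        Finset.sum_eq_zero fun k hk => Set.indicator_of_notMem (h k hk) _
      rw [this]; simp

lemma comb_inner {h : ℝ → ℝ} (hc : Continuous h) {a ε : ℝ} (ha : 0 < a) (hε : 0 < ε) (N : ℕ)
    {θ : ℝ} {s : ℤ → ℝ}
    (hE : ∀ k : ℤ, Complex.exp (-(2 * Real.pi * Complex.I * θ * k)) = (s k : ℂ))
    (y : ℝ) (j l : ℤ) :
    ∫ t : ℝ, (comb a ε N t : ℂ) * (starRingEnd ℂ)
        (Complex.exp (2 * Real.pi * Complex.I * (((θ + l) / a : ℝ) : ℂ) * t) *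
          (h (t - (-y + a * j)) : ℂ)) =
      ∫ t in (0 : ℝ)..ε, Complex.exp (-(2 * Real.pi * Complex.I * l * t / a)) *
        (Complex.exp (-(2 * Real.pi * Complex.I * θ * t / a)) *
          ((∑ k ∈ Finset.Ico (0 : ℤ) N, s k * h (t + y + a * ((k - j : ℤ) : ℝ)) : ℝ) : ℂ)) := by
  set G : ℝ → ℂ := fun t => Complex.exp (-(2 * Real.pi * Complex.I * (((θ + l) / a : ℝ) : ℂ) * t)) *
    (h (t - (-y + a * j)) : ℂ) with hG
  have hGc : Continuous G := by
    rw [hG]
    fun_prop
  have e1 : ∀ t : ℝ, (comb a ε N t : ℂ) * (starRingEnd ℂ)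
        (Complex.exp (2 * Real.pi * Complex.I * (((θ + l) / a : ℝ) : ℂ) * t) *
          (h (t - (-y + a * j)) : ℂ)) =
      ∑ k ∈ Finset.Ico (0 : ℤ) N, (Set.Ioc (a * k) (a * k + ε)).indicator G t := by
    intro t
    have e2 : (starRingEnd ℂ)
        (Complex.exp (2 * Real.pi * Complex.I * (((θ + l) / a : ℝ) : ℂ) * t) *
          (h (t - (-y + a * j)) : ℂ)) = G t := by
      rw [map_mul, Complex.conj_ofReal, ← Complex.exp_conj, hG]
      simp only [map_mul, Complex.conj_ofReal, Complex.conj_I, map_ofNat]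
      congr 2
      ring
    rw [e2]
    unfold comb
    push_cast
    rw [Finset.sum_mul]
    refine Finset.sum_congr rfl fun k _ => ?_
    by_cases ht : t ∈ Set.Ioc (a * k) (a * k + ε)
    · simp [Set.indicator_of_mem ht]
    · simp [Set.indicator_of_notMem ht]
  simp_rw [e1]
  rw [integral_finsetSum _ (fun k _ => (integrable_indicator_iff measurableSet_Ioc).mpr
    (hGc.integrableOn_Ioc))]
  have e3 : ∀ k ∈ Finset.Ico (0 : ℤ) N,
      ∫ t, (Set.Ioc (a * k) (a * k + ε)).indicator G t = ∫ t in (0 : ℝ)..ε, G (t + a * k) := by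
    intro k _
    rw [integral_indicator measurableSet_Ioc, intervalIntegral.integral_comp_add_right,
      zero_add, add_comm ε, intervalIntegral.integral_of_le (by linarith)]
  rw [Finset.sum_congr rfl e3, ← intervalIntegral.integral_finsetSum
    (f := fun (k : ℤ) (t : ℝ) => G (t + a * k))
    (fun k _ => (hGc.comp (continuous_id.add continuous_const)).intervalIntegrable _ _)]
  congr 1
  ext t
  push_cast
  rw [Finset.mul_sum, Finset.mul_sum]
  refine Finset.sum_congr rfl fun k _ => ?_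
  have ha' : (a : ℂ) ≠ 0 := by exact_mod_cast ha.ne'
  have e4 : Complex.exp (-(2 * Real.pi * Complex.I * (((θ + l) / a : ℝ) : ℂ) * ((t + a * k : ℝ) : ℂ))) =
      Complex.exp (-(2 * Real.pi * Complex.I * l * t / a)) *
        Complex.exp (-(2 * Real.pi * Complex.I * θ * t / a)) * (s k : ℂ) := by
    have e5 : Complex.exp (((-(l * k) : ℤ) : ℂ) * (2 * Real.pi * Complex.I)) = 1 :=
      Complex.exp_int_mul_two_pi_mul_I _
    rw [← hE k, ← mul_one (_ * Complex.exp (-(2 * Real.pi * Complex.I * θ * k))), ← e5,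
      ← Complex.exp_add, ← Complex.exp_add, ← Complex.exp_add]
    congr 1
    push_cast
    field_simp
    ring
  simp only [hG]
  rw [e4]
  have e6 : t + a * k - (-y + a * j) = t + y + a * ((k : ℝ) - j) := by ring
  rw [e6]
  ring

end Pool.Agent.MP_bef260_an.H31
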