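import Mathlib
import Pool.Agent.MP_bef260_an.H31.Bessel

/-! No lower frame bound over finitely many cosets placed at zeros of the periodizations. -/

open Filter Topology MeasureTheory
open scoped ENNReal

namespace Pool.Agent.MP_bef260_an.H31

/-- indicator of the integer interval from `0` to `N` -/
noncomputable def chi (N : ℕ) (j : ℤ) : ℝ := if j ∈ Finset.Ico (0 : ℤ) N then 1 else 0

lemma chi_nonneg (N : ℕ) (j : ℤ) : 0 ≤ chi N j := by
  unfold chi; split_ifs <;> norm_num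

lemma chi_le_one (N : ℕ) (j : ℤ) : chi N j ≤ 1 := by
  unfold chi; split_ifs <;> norm_num

lemma chi_sub_le (N : ℕ) (j d : ℤ) : |chi N (j + d) - chi N j| ≤ 1 := by
  have := chi_nonneg N j
  have := chi_nonneg N (j + d)
  have := chi_le_one N j
  have := chi_le_one N (j + d)
  rw [abs_le]; constructor <;> linarith

lemma tsum_chi (N : ℕ) {η : ℝ} (hη : 0 ≤ η) :
    ∑' j : ℤ, ENNReal.ofReal (chi N j * η) = ENNReal.ofReal (N * η) := by
  rw [tsum_eq_sum (s := Finset.Ico (0 : ℤ) N) (fun j hj => by simp [chi, hj]),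
    ← ENNReal.ofReal_sum_of_nonneg (fun j _ => mul_nonneg (chi_nonneg N j) hη)]
  congr 1
  rw [Finset.sum_congr rfl (g := fun _ => η) (fun j hj => by simp only [chi, if_pos hj, one_mul])]
  simp

lemma crossing (N : ℕ) (d : ℤ) {r : ℝ} (hr : 0 ≤ r) :
    ∑' j : ℤ, ENNReal.ofReal (|chi N (j + d) - chi N j| * r) ≤
      ENNReal.ofReal (4 * |(d : ℝ)| * r) := by
  set T : Finset ℤ := Finset.Ico (-|d|) |d| ∪ Finset.Ico ((N : ℤ) - |d|) (N + |d|) with hT
  have h0 : ∀ j ∉ T, ENNReal.ofReal (|chi N (j + d) - chi N j| * r) = 0 := by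
    intro j hj
    have : chi N (j + d) = chi N j := by
      simp only [hT, Finset.mem_union, Finset.mem_Ico, not_or, not_and, not_lt] at hj
      unfold chi
      simp only [Finset.mem_Ico]
      have h1 := le_abs_self d
      have h2 := neg_abs_le d
      congr 1
      apply propext
      omega
    simp [this]
  rw [tsum_eq_sum h0, ← ENNReal.ofReal_sum_of_nonneg (fun j _ => by positivity)]
  apply ENNReal.ofReal_le_ofReal
  have h1 : ∑ j ∈ T, |chi N (j + d) - chi N j| * r ≤ T.card • r :=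
    Finset.sum_le_card_nsmul _ _ _ fun j _ => by
      have := chi_sub_le N j d
      nlinarith
  refine h1.trans ?_
  rw [nsmul_eq_mul]
  gcongr
  have h2 : (T.card : ℤ) ≤ 4 * |d| := by
    have := Finset.card_union_le (Finset.Ico (-|d|) |d|) (Finset.Ico ((N : ℤ) - |d|) (N + |d|))
    rw [Int.card_Ico, Int.card_Ico] at this
    have h3 := abs_nonneg d
    rw [hT]
    omega
  exact_mod_cast h2

lemma sign_props {θ : ℝ} {s : ℤ → ℝ}
    (hE : ∀ k : ℤ, Complex.exp (-(2 * Real.pi * Complex.I * θ * k)) = (s k : ℂ)) :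
    (∀ k, |s k| = 1) ∧ ∀ j d, s (j + d) = s j * s d := by
  constructor
  · intro k
    have h1 := congrArg norm (hE k)
    rw [Complex.norm_real, Real.norm_eq_abs, Complex.norm_exp] at h1
    rw [← h1]
    simp
  · intro j d
    apply Complex.ofReal_injective
    push_cast
    rw [← hE, ← hE, ← hE, ← Complex.exp_add]
    congr 1
    push_cast
    ring

lemma trunc_bound {h : ℝ → ℝ} {K : ℝ} (hK0 : 0 ≤ K) (hK : ∀ t, |h t| ≤ K * Real.exp (-|t|))
    {s : ℤ → ℝ} (hs1 : ∀ k, |s k| = 1) (hs2 : ∀ j d, s (j + d) = s j * s d) {a : ℝ} (ha : 0 < a)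
    {T u η : ℝ} (hu : |u| ≤ T) (hZ : |∑' k : ℤ, s k * h (u + a * k)| ≤ η) (N : ℕ) (j : ℤ) :
    |∑ k ∈ Finset.Ico (0 : ℤ) N, s k * h (u + a * ((k - j : ℤ) : ℝ))| ≤
      chi N j * η + ∑' d : ℤ, |chi N (j + d) - chi N j| *
        (K * Real.exp T * Real.exp (-a * |(d : ℝ)|)) := by
  have hs : ∀ k, |s k| ≤ 1 := fun k => (hs1 k).le
  have e1 : ∑ k ∈ Finset.Ico (0 : ℤ) N, s k * h (u + a * ((k - j : ℤ) : ℝ)) =
      ∑' d : ℤ, chi N (j + d) * (s j * (s d * h (u + a * d))) := by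
    have e0 : ∑' k : ℤ, chi N k * (s k * h (u + a * ((k - j : ℤ) : ℝ))) =
        ∑ k ∈ Finset.Ico (0 : ℤ) N, s k * h (u + a * ((k - j : ℤ) : ℝ)) := by
      rw [tsum_eq_sum (s := Finset.Ico (0 : ℤ) N) (fun k hk => by simp only [chi, if_neg hk, zero_mul])]
      exact Finset.sum_congr rfl fun k hk => by simp only [chi, if_pos hk, one_mul]
    rw [← e0, ← (Equiv.addLeft j).tsum_eq]
    congr 1
    ext d
    simp only [Equiv.coe_addLeft, add_sub_cancel_left, hs2]
    ring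
  have hb : ∀ d : ℤ, ‖(chi N (j + d) - chi N j) * (s j * (s d * h (u + a * d)))‖ ≤
      |chi N (j + d) - chi N j| * (K * Real.exp T * Real.exp (-a * |(d : ℝ)|)) := by
    intro d
    rw [norm_mul, norm_mul, Real.norm_eq_abs, Real.norm_eq_abs (s j), hs1, one_mul]
    gcongr
    exact term_bound hK0 hK hs ha.le hu d
  have hsum : Summable fun d : ℤ =>
      |chi N (j + d) - chi N j| * (K * Real.exp T * Real.exp (-a * |(d : ℝ)|)) := by
    refine Summable.of_nonneg_of_le (fun d => by positivity) (fun d => ?_)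
      ((summable_exp_int ha).mul_left (K * Real.exp T))
    have := chi_sub_le N j d
    have h2 : 0 ≤ K * Real.exp T * Real.exp (-a * |(d : ℝ)|) := by positivity
    nlinarith
  have hsum1 : Summable fun d : ℤ => (chi N (j + d) - chi N j) * (s j * (s d * h (u + a * d))) :=
    Summable.of_norm_bounded hsum hb
  have hsum2 : Summable fun d : ℤ => chi N j * (s j * (s d * h (u + a * d))) :=
    ((summable_zak hK0 hK hs ha u).mul_left _).mul_left _
  have e2 : ∑' d : ℤ, chi N (j + d) * (s j * (s d * h (u + a * d))) =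
      chi N j * (s j * ∑' d : ℤ, s d * h (u + a * d)) +
      ∑' d : ℤ, (chi N (j + d) - chi N j) * (s j * (s d * h (u + a * d))) := by
    rw [← tsum_mul_left, ← tsum_mul_left, ← hsum2.tsum_add hsum1]
    congr 1
    ext d
    ring
  rw [e1, e2]
  refine (abs_add_le _ _).trans (add_le_add ?_ ?_)
  · rw [abs_mul, abs_mul, hs1, one_mul, abs_of_nonneg (chi_nonneg N j)]
    exact mul_le_mul_of_nonneg_left hZ (chi_nonneg N j)
  · rw [← Real.norm_eq_abs]
    exact tsum_of_norm_bounded hsum.hasSum hb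

lemma coset_bound {h : ℝ → ℝ} (hc : Continuous h) {K : ℝ} (hK0 : 0 ≤ K)
    (hK : ∀ t, |h t| ≤ K * Real.exp (-|t|)) {a ε : ℝ} (hε : 0 < ε) (hε1 : ε ≤ 1) (hεa : ε ≤ a)
    (N : ℕ) {θ : ℝ} {s : ℤ → ℝ}
    (hE : ∀ k : ℤ, Complex.exp (-(2 * Real.pi * Complex.I * θ * k)) = (s k : ℂ))
    (y : ℝ) {η : ℝ} (hη : 0 ≤ η)
    (hZ : ∀ t ∈ Set.Ioc 0 ε, |∑' k : ℤ, s k * h (t + y + a * k)| ≤ η) :
    ∑' j : ℤ, ∑' l : ℤ, ENNReal.ofReal (‖∫ t : ℝ, (comb a ε N t : ℂ) * (starRingEnd ℂ)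
        (Complex.exp (2 * Real.pi * Complex.I * (((θ + l) / a : ℝ) : ℂ) * t) *
          (h (t - (-y + a * j)) : ℂ))‖ ^ 2) ≤
      ENNReal.ofReal (a * ε *
        (η + ∑' d : ℤ, K * Real.exp (|y| + 1) * Real.exp (-a * |(d : ℝ)|)) *
        (N * η + ∑' d : ℤ, 4 * |(d : ℝ)| * (K * Real.exp (|y| + 1) * Real.exp (-a * |(d : ℝ)|)))) := by
  have ha : 0 < a := hε.trans_le hεa
  obtain ⟨hs1, hs2⟩ := sign_props hE
  set r : ℤ → ℝ := fun d => K * Real.exp (|y| + 1) * Real.exp (-a * |(d : ℝ)|) with hr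
  have hr0 : ∀ d, 0 ≤ r d := fun d => by simp only [hr]; positivity
  have hrs : Summable r := (summable_exp_int ha).mul_left _
  have hrs1 : Summable fun d : ℤ => 4 * |(d : ℝ)| * r d := by
    have := (summable_pow_exp_int 1 ha).mul_left (4 * (K * Real.exp (|y| + 1)))
    refine this.congr fun d => ?_
    simp only [hr]; ring
  set b : ℤ → ℝ := fun j => chi N j * η + ∑' d : ℤ, |chi N (j + d) - chi N j| * r d with hb
  have hcs : ∀ j, Summable fun d : ℤ => |chi N (j + d) - chi N j| * r d := by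
    intro j
    refine Summable.of_nonneg_of_le (fun d => mul_nonneg (abs_nonneg _) (hr0 d)) (fun d => ?_) hrs
    have := chi_sub_le N j d
    have := hr0 d
    nlinarith
  have hb1 : ∀ j, 0 ≤ ∑' d : ℤ, |chi N (j + d) - chi N j| * r d :=
    fun j => tsum_nonneg fun d => mul_nonneg (abs_nonneg _) (hr0 d)
  have hb0 : ∀ j, 0 ≤ b j := fun j => add_nonneg (mul_nonneg (chi_nonneg N j) hη) (hb1 j)
  have hbR : ∀ j, b j ≤ η + ∑' d, r d := by
    intro j
    apply add_le_add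
    · have := chi_le_one N j
      nlinarith
    · refine (hcs j).tsum_le_tsum (fun d => ?_) hrs
      have := chi_sub_le N j d
      have := hr0 d
      nlinarith
  have hR0 : 0 ≤ η + ∑' d, r d := add_nonneg hη (tsum_nonneg hr0)
  have step1 : ∀ j : ℤ, ∑' l : ℤ, ENNReal.ofReal (‖∫ t : ℝ, (comb a ε N t : ℂ) * (starRingEnd ℂ)
        (Complex.exp (2 * Real.pi * Complex.I * (((θ + l) / a : ℝ) : ℂ) * t) *
          (h (t - (-y + a * j)) : ℂ))‖ ^ 2) ≤
      ENNReal.ofReal (a * ε * (η + ∑' d, r d)) * ENNReal.ofReal (b j) := by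
    intro j
    simp_rw [comb_inner hc ha hε N hE y j]
    refine (bessel_piece (b := b j) (by fun_prop) hε hεa (hb0 j) (fun t ht => ?_)).trans ?_
    · rw [norm_mul, Complex.norm_real, Real.norm_eq_abs]
      have h1 : ‖Complex.exp (-(2 * Real.pi * Complex.I * θ * t / a))‖ = 1 := by
        have : -(2 * Real.pi * Complex.I * θ * t / a) = ((-(2 * Real.pi * θ * t / a) : ℝ) : ℂ) *
            Complex.I := by push_cast; ring
        rw [this, Complex.norm_exp_ofReal_mul_I]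
      rw [h1, one_mul]
      refine trunc_bound hK0 hK hs1 hs2 ha ?_ (hZ t ht) N j
      have := abs_add_le t y
      rw [abs_of_pos ht.1] at this
      have := ht.2
      linarith
    · rw [← ENNReal.ofReal_mul (by positivity)]
      apply ENNReal.ofReal_le_ofReal
      have := hbR j
      have := hb0 j
      have h3 : b j ^ 2 ≤ (η + ∑' d, r d) * b j := by nlinarith
      calc a * ε * b j ^ 2 ≤ a * ε * ((η + ∑' d, r d) * b j) := by gcongr
        _ = _ := by ring
  refine (ENNReal.tsum_le_tsum step1).trans ?_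
  rw [ENNReal.tsum_mul_left, ENNReal.ofReal_mul (p := a * ε * (η + ∑' d, r d)) (by positivity)]
  gcongr
  have e1 : ∀ j, ENNReal.ofReal (b j) = ENNReal.ofReal (chi N j * η) +
      ∑' d : ℤ, ENNReal.ofReal (|chi N (j + d) - chi N j| * r d) := by
    intro j
    rw [← ENNReal.ofReal_tsum_of_nonneg (fun d => mul_nonneg (abs_nonneg _) (hr0 d)) (hcs j),
      ← ENNReal.ofReal_add (mul_nonneg (chi_nonneg N j) hη) (hb1 j)]
  simp_rw [e1]
  rw [ENNReal.tsum_add, tsum_chi N hη, ENNReal.tsum_comm, ENNReal.ofReal_add (by positivity)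
    (tsum_nonneg fun d => mul_nonneg (by positivity) (hr0 d)),
    ENNReal.ofReal_tsum_of_nonneg (fun d => mul_nonneg (by positivity) (hr0 d)) hrs1]
  gcongr with d
  exact crossing N d (hr0 d)

theorem no_lower_bound {h : ℝ → ℝ} (hc : Continuous h) {K : ℝ} (hK0 : 0 ≤ K)
    (hK : ∀ t, |h t| ≤ K * Real.exp (-|t|)) {a : ℝ} (ha : 0 < a) {ι : Type} [Fintype ι]
    (y θ : ι → ℝ) (s : ι → ℤ → ℝ)
    (hE : ∀ m, ∀ k : ℤ, Complex.exp (-(2 * Real.pi * Complex.I * θ m * k)) = (s m k : ℂ))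
    (hZ : ∀ m, ∑' k : ℤ, s m k * h (y m + a * k) = 0) {A : ℝ} (hA : 0 < A) :
    ∃ f : ℝ → ℂ, MemLp f 2 volume ∧
      ∑' p : ι × ℤ × ℤ, ENNReal.ofReal (‖∫ t : ℝ, f t * (starRingEnd ℂ)
        (Complex.exp (2 * Real.pi * Complex.I * (((θ p.1 + p.2.2) / a : ℝ) : ℂ) * t) *
          (h (t - (-y p.1 + a * p.2.1)) : ℂ))‖ ^ 2) <
      ENNReal.ofReal (A * ∫ t, ‖f t‖ ^ 2) := by
  set R : ι → ℝ := fun m => ∑' d : ℤ, K * Real.exp (|y m| + 1) * Real.exp (-a * |(d : ℝ)|) with hR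
  set C : ι → ℝ := fun m =>
    ∑' d : ℤ, 4 * |(d : ℝ)| * (K * Real.exp (|y m| + 1) * Real.exp (-a * |(d : ℝ)|)) with hC
  have hR0 : ∀ m, 0 ≤ R m := fun m => tsum_nonneg fun d => by positivity
  have hC0 : ∀ m, 0 ≤ C m := fun m => tsum_nonneg fun d => by positivity
  have h1 : Tendsto (fun u : ℝ => ∑ m, a * (u + R m) * (u + C m * u)) (𝓝 0) (𝓝 0) := by
    have : Continuous fun u : ℝ => ∑ m, a * (u + R m) * (u + C m * u) := by fun_prop
    simpa using this.tendsto 0
  have h2 := (h1.comp tendsto_inv_atTop_nhds_zero_nat).eventually (gt_mem_nhds hA)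
  obtain ⟨N, hN1, hN2⟩ := (h2.and (eventually_gt_atTop 0)).exists
  have hN0 : (0 : ℝ) < N := by exact_mod_cast hN2
  set η : ℝ := (N : ℝ)⁻¹ with hη
  have hη0 : 0 < η := by positivity
  have h3 : ∀ᶠ t : ℝ in 𝓝 0, ∀ m, |∑' k : ℤ, s m k * h (t + y m + a * k)| < η := by
    rw [eventually_all]
    intro m
    have hs : ∀ k, |s m k| ≤ 1 := fun k => ((sign_props (hE m)).1 k).le
    have h4 : Continuous fun t : ℝ => |∑' k : ℤ, s m k * h (t + y m + a * k)| :=
      ((continuous_zak hc hK0 hK hs ha).comp (continuous_id.add continuous_const)).abs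
    have h5 := h4.tendsto 0
    simp only [zero_add, hZ m, abs_zero] at h5
    exact h5.eventually (gt_mem_nhds hη0)
  obtain ⟨δ, hδ0, hδ⟩ := Metric.eventually_nhds_iff.mp h3
  set ε : ℝ := min (δ / 2) (min 1 a) with hε
  have hε0 : 0 < ε := lt_min (by positivity) (lt_min one_pos ha)
  have hε1 : ε ≤ 1 := (min_le_right _ _).trans (min_le_left _ _)
  have hεa : ε ≤ a := (min_le_right _ _).trans (min_le_right _ _)
  have hεδ : ε < δ := (min_le_left _ _).trans_lt (by linarith)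
  refine ⟨fun t => (comb a ε N t : ℂ), comb_memLp a ε N, ?_⟩
  rw [ENNReal.tsum_prod', tsum_fintype]
  simp_rw [ENNReal.tsum_prod']
  have h6 : ∀ m ∈ Finset.univ, ∑' j : ℤ, ∑' l : ℤ,
      ENNReal.ofReal (‖∫ t : ℝ, (comb a ε N t : ℂ) * (starRingEnd ℂ)
        (Complex.exp (2 * Real.pi * Complex.I * (((θ m + l) / a : ℝ) : ℂ) * t) *
          (h (t - (-y m + a * j)) : ℂ))‖ ^ 2) ≤
      ENNReal.ofReal (a * ε * (η + R m) * (N * η + C m)) := by
    intro m _
    refine coset_bound hc hK0 hK hε0 hε1 hεa N (hE m) (y m) hη0.le fun t ht => ?_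
    refine (hδ ?_ m).le
    rw [Real.dist_eq, sub_zero, abs_of_pos ht.1]
    exact ht.2.trans_lt hεδ
  refine (Finset.sum_le_sum h6).trans_lt ?_
  rw [← ENNReal.ofReal_sum_of_nonneg (fun m _ => by
    have := hR0 m; have := hC0 m; positivity)]
  have h7 := comb_norm a hε0 N
  have h8 : ∑ m, a * ε * (η + R m) * (N * η + C m) =
      (∑ m, a * (η + R m) * (η + C m * η)) * (N * ε) := by
    rw [Finset.sum_mul]
    refine Finset.sum_congr rfl fun m _ => ?_
    rw [hη]
    field_simp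
  have h9 : (∑ m, a * (η + R m) * (η + C m * η)) * (N * ε) < A * (N * ε) :=
    mul_lt_mul_of_pos_right hN1 (by positivity)
  have h10 : A * (N * ε) ≤ A * ∫ t, ‖(comb a ε N t : ℂ)‖ ^ 2 := by gcongr
  rw [ENNReal.ofReal_lt_ofReal_iff ((mul_pos hA (mul_pos hN0 hε0)).trans_le h10), h8]
  exact h9.trans_le h10

end Pool.Agent.MP_bef260_an.H31
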