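import Mathlib

/-! Separation and lower density of a finite union of cosets of a rectangular lattice. -/

open Filter Topology MeasureTheory
open scoped ENNReal

namespace Pool.Agent.MP_bef260_an.H31

lemma gap_one (u : ℝ) {a : ℝ} (ha : 0 < a) :
    ∃ δ : ℝ, 0 < δ ∧ ∀ j : ℤ, u + a * j = 0 ∨ δ ≤ |u + a * j| := by
  set φ := Int.fract (u / a) with hφ
  have h0 : 0 ≤ φ := Int.fract_nonneg _
  have h1 : φ < 1 := Int.fract_lt_one _
  have e : ∀ j : ℤ, u + a * j = a * (φ + ((⌊u / a⌋ + j : ℤ) : ℝ)) := by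
    intro j
    rw [hφ, Int.fract]
    push_cast
    field_simp
    ring
  rcases h0.eq_or_lt with h | h
  · refine ⟨a, ha, fun j => ?_⟩
    rw [e, ← h, zero_add]
    by_cases hj : ⌊u / a⌋ + j = 0
    · left; rw [hj]; simp
    · right
      rw [abs_mul, abs_of_pos ha]
      have : (1 : ℝ) ≤ |((⌊u / a⌋ + j : ℤ) : ℝ)| := by exact_mod_cast Int.one_le_abs hj
      nlinarith
  · refine ⟨a * min φ (1 - φ), mul_pos ha (lt_min h (by linarith)), fun j => Or.inr ?_⟩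
    rw [e, abs_mul, abs_of_pos ha]
    gcongr
    rcases le_or_gt 0 (⌊u / a⌋ + j) with hj | hj
    · have : (0 : ℝ) ≤ ((⌊u / a⌋ + j : ℤ) : ℝ) := by exact_mod_cast hj
      rw [abs_of_nonneg (by linarith)]
      exact (min_le_left _ _).trans (by linarith)
    · have : ((⌊u / a⌋ + j : ℤ) : ℝ) ≤ -1 := by exact_mod_cast (by omega : ⌊u / a⌋ + j ≤ -1)
      rw [abs_of_nonpos (by linarith)]
      exact (min_le_right _ _).trans (by linarith)

lemma gap_fin {ι : Type} [Fintype ι] (u : ι → ℝ) {a : ℝ} (ha : 0 < a) :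
    ∃ δ : ℝ, 0 < δ ∧ ∀ m m' : ι, ∀ j j' : ℤ,
      u m + a * j = u m' + a * j' ∨ δ ≤ |u m + a * j - (u m' + a * j')| := by
  have h1 : ∀ p : ι × ι, ∀ᶠ δ : ℝ in 𝓝[>] 0, ∀ j : ℤ,
      u p.1 - u p.2 + a * j = 0 ∨ δ ≤ |u p.1 - u p.2 + a * j| := by
    intro p
    obtain ⟨δ, hδ0, hδ⟩ := gap_one (u p.1 - u p.2) ha
    filter_upwards [Ioo_mem_nhdsGT hδ0] with x hx j
    exact (hδ j).imp id fun h => hx.2.le.trans h
  obtain ⟨δ, h2, h3⟩ := ((eventually_all.mpr h1).and self_mem_nhdsWithin).exists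
  refine ⟨δ, h3, fun m m' j j' => ?_⟩
  have := h2 (m, m') (j - j')
  push_cast at this
  have e : u m + a * j - (u m' + a * j') = u m - u m' + a * (j - j') := by ring
  rw [e]
  exact this.imp (fun h => by linarith) id

/-- the points of the configuration -/
noncomputable def pt {ι : Type} (u v : ι → ℝ) (a : ℝ) (p : ι × ℤ × ℤ) :
    EuclideanSpace ℝ (Fin 2) :=
  !₂[u p.1 + a * p.2.1, v p.1 + a⁻¹ * p.2.2]

lemma pt_zero {ι : Type} (u v : ι → ℝ) (a : ℝ) (p : ι × ℤ × ℤ) :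
    pt u v a p 0 = u p.1 + a * p.2.1 := rfl

lemma pt_one {ι : Type} (u v : ι → ℝ) (a : ℝ) (p : ι × ℤ × ℤ) :
    pt u v a p 1 = v p.1 + a⁻¹ * p.2.2 := rfl

lemma pt_separated {ι : Type} [Fintype ι] (u v : ι → ℝ) {a : ℝ} (ha : 0 < a) :
    ∃ δ : ℝ, 0 < δ ∧ ∀ γ ∈ Set.range (pt u v a), ∀ γ' ∈ Set.range (pt u v a), γ ≠ γ' →
      δ ≤ dist γ γ' := by
  obtain ⟨δ1, h1, h1'⟩ := gap_fin u ha
  obtain ⟨δ2, h2, h2'⟩ := gap_fin v (inv_pos.mpr ha)
  refine ⟨min δ1 δ2, lt_min h1 h2, ?_⟩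
  rintro _ ⟨p, rfl⟩ _ ⟨q, rfl⟩ hne
  rcases h1' p.1 q.1 p.2.1 q.2.1 with e1 | e1
  · rcases h2' p.1 q.1 p.2.2 q.2.2 with e2 | e2
    · exfalso
      apply hne
      unfold pt
      rw [e1, e2]
    · refine (min_le_right _ _).trans (e2.trans ?_)
      have := PiLp.dist_apply_le (pt u v a p) (pt u v a q) 1
      rwa [pt_one, pt_one, Real.dist_eq] at this
  · refine (min_le_left _ _).trans (e1.trans ?_)
    have := PiLp.dist_apply_le (pt u v a p) (pt u v a q) 0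
    rwa [pt_zero, pt_zero, Real.dist_eq] at this

lemma volume_cell (x y : ℝ) {a : ℝ} (ha : 0 < a) :
    volume {w : EuclideanSpace ℝ (Fin 2) | w 0 ∈ Set.Ico x (x + a) ∧ w 1 ∈ Set.Ico y (y + a⁻¹)}
      = 1 := by
  have e : {w : EuclideanSpace ℝ (Fin 2) | w 0 ∈ Set.Ico x (x + a) ∧ w 1 ∈ Set.Ico y (y + a⁻¹)} =
      (@WithLp.ofLp 2 (Fin 2 → ℝ)) ⁻¹'
        (Set.univ.pi fun i => Set.Ico (![x, y] i) (![x + a, y + a⁻¹] i)) := by
    ext w
    simp [Set.mem_pi, Fin.forall_fin_two]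
  rw [e, (PiLp.volume_preserving_ofLp (Fin 2)).measure_preimage
    (MeasurableSet.univ_pi fun i => measurableSet_Ico).nullMeasurableSet, Real.volume_pi_Ico]
  simp only [Fin.prod_univ_two, Matrix.cons_val_zero, Matrix.cons_val_one, add_sub_cancel_left]
  rw [← ENNReal.ofReal_mul ha.le, mul_inv_cancel₀ ha.ne', ENNReal.ofReal_one]

lemma count_ball {ι : Type} [Fintype ι] (u v : ι → ℝ) {a : ℝ} (ha : 0 < a)
    (hinj : Function.Injective (pt u v a)) (z : EuclideanSpace ℝ (Fin 2)) (R : ℝ) :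
    (Fintype.card ι : ℝ≥0∞) * volume (Metric.ball z (R - (a + a⁻¹))) ≤
      ((Set.range (pt u v a) ∩ Metric.ball z R).encard : ℝ≥0∞) := by
  classical
  set S : Set (ι × ℤ × ℤ) := pt u v a ⁻¹' Metric.ball z R with hS
  have e1 : Set.range (pt u v a) ∩ Metric.ball z R = pt u v a '' S := by
    rw [hS, Set.image_preimage_eq_range_inter]
  rw [e1, hinj.encard_image, ← ENNReal.tsum_set_one, tsum_subtype S (fun _ => (1 : ℝ≥0∞)),
    ENNReal.tsum_prod', tsum_fintype, ← nsmul_eq_mul, ← Finset.card_univ]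
  refine Finset.card_nsmul_le_sum _ _ _ fun m _ => ?_
  let cell : ℤ × ℤ → Set (EuclideanSpace ℝ (Fin 2)) := fun q =>
    {w | w 0 ∈ Set.Ico (u m + a * q.1) (u m + a * q.1 + a) ∧
      w 1 ∈ Set.Ico (v m + a⁻¹ * q.2) (v m + a⁻¹ * q.2 + a⁻¹)}
  have hsub : Metric.ball z (R - (a + a⁻¹)) ⊆ ⋃ q : ℤ × ℤ, if (m, q) ∈ S then cell q else ∅ := by
    intro w hw
    have hai : 0 < a⁻¹ := inv_pos.mpr ha
    set q : ℤ × ℤ := (⌊(w 0 - u m) / a⌋, ⌊(w 1 - v m) / a⁻¹⌋) with hq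
    have c1 : a * (q.1 : ℝ) ≤ w 0 - u m := by
      have := Int.floor_le ((w 0 - u m) / a)
      rwa [le_div_iff₀ ha, mul_comm] at this
    have c2 : w 0 - u m < a * (q.1 : ℝ) + a := by
      have := Int.lt_floor_add_one ((w 0 - u m) / a)
      rw [div_lt_iff₀ ha] at this
      simp only [hq]
      linarith
    have c3 : a⁻¹ * (q.2 : ℝ) ≤ w 1 - v m := by
      have := Int.floor_le ((w 1 - v m) / a⁻¹)
      rwa [le_div_iff₀ hai, mul_comm] at this
    have c4 : w 1 - v m < a⁻¹ * (q.2 : ℝ) + a⁻¹ := by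
      have := Int.lt_floor_add_one ((w 1 - v m) / a⁻¹)
      rw [div_lt_iff₀ hai] at this
      simp only [hq]
      linarith
    have hd : dist (pt u v a (m, q)) w ≤ a + a⁻¹ := by
      rw [EuclideanSpace.dist_eq, Fin.sum_univ_two, pt_zero, pt_one, Real.dist_eq, Real.dist_eq,
        sq_abs, sq_abs]
      apply Real.sqrt_le_iff.mpr
      refine ⟨by positivity, ?_⟩
      have d1 : (u m + a * (q.1 : ℝ) - w 0) ^ 2 ≤ a ^ 2 := by
        apply sq_le_sq' <;> linarith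
      have d2 : (v m + a⁻¹ * (q.2 : ℝ) - w 1) ^ 2 ≤ a⁻¹ ^ 2 := by
        apply sq_le_sq' <;> linarith
      have d3 : 0 < a * a⁻¹ := mul_pos ha hai
      simp only
      nlinarith
    have hmem : (m, q) ∈ S := by
      rw [hS, Set.mem_preimage, Metric.mem_ball]
      have := dist_triangle (pt u v a (m, q)) w z
      rw [Metric.mem_ball] at hw
      linarith
    refine Set.mem_iUnion.mpr ⟨q, ?_⟩
    rw [if_pos hmem]
    exact ⟨⟨by linarith, by linarith⟩, ⟨by linarith, by linarith⟩⟩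
  refine (measure_mono hsub).trans ((measure_iUnion_le _).trans (ENNReal.tsum_le_tsum fun q => ?_))
  by_cases hq : (m, q) ∈ S
  · rw [if_pos hq, Set.indicator_of_mem hq]
    exact (volume_cell _ _ ha).le
  · rw [if_neg hq]; simp

lemma pt_density {ι : Type} [Fintype ι] (u v : ι → ℝ) {a : ℝ} (ha : 0 < a)
    (hinj : Function.Injective (pt u v a)) :
    (Fintype.card ι : ℝ≥0∞) ≤ liminf (fun R : ℝ => ⨅ z : EuclideanSpace ℝ (Fin 2),
      ((Set.range (pt u v a) ∩ Metric.ball z R).encard : ℝ≥0∞) / volume (Metric.ball z R))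
      atTop := by
  set D := a + a⁻¹ with hD
  have hD0 : 0 < D := by positivity
  have h1 : Tendsto (fun R : ℝ => (Fintype.card ι : ℝ≥0∞) * ENNReal.ofReal ((1 - D * R⁻¹) ^ 2))
      atTop (𝓝 (Fintype.card ι : ℝ≥0∞)) := by
    have h2 : Tendsto (fun R : ℝ => (1 - D * R⁻¹) ^ 2) atTop (𝓝 1) := by
      have := ((tendsto_inv_atTop_zero.const_mul D).const_sub 1).pow 2
      simpa using this
    have h3 := ENNReal.Tendsto.const_mul (a := (Fintype.card ι : ℝ≥0∞))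
      (ENNReal.tendsto_ofReal h2) (Or.inr (ENNReal.natCast_ne_top _))
    simpa using h3
  rw [← h1.liminf_eq]
  refine liminf_le_liminf ?_
  filter_upwards [eventually_gt_atTop D] with R hR
  have hR0 : 0 < R := hD0.trans hR
  refine le_iInf fun z => ?_
  rw [ENNReal.le_div_iff_mul_le (Or.inl (Metric.measure_ball_pos _ _ hR0).ne')
    (Or.inl measure_ball_lt_top.ne)]
  refine le_trans (le_of_eq ?_) (count_ball u v ha hinj z R)
  rw [EuclideanSpace.volume_ball_fin_two, EuclideanSpace.volume_ball_fin_two, mul_assoc,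
    ← mul_assoc (ENNReal.ofReal _), ← ENNReal.ofReal_pow hR0.le,
    ← ENNReal.ofReal_pow (by linarith), ← ENNReal.ofReal_mul (by positivity)]
  congr 3
  rw [← hD]
  field_simp

end Pool.Agent.MP_bef260_an.H31
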