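import Mathlib

/-! Elementary facts on the derivatives of the Gaussian: polynomial form, decay, parity and
sign alternation. -/

open Polynomial

namespace Pool.Agent.MP_bef260_an.H31

lemma poly_gauss_decay (P : ℝ[X]) {c : ℝ} (hc : 0 < c) :
    ∃ K : ℝ, 0 ≤ K ∧ ∀ t : ℝ, |P.eval t * Real.exp (-c * t ^ 2)| ≤ K * Real.exp (-|t|) := by
  induction P using Polynomial.induction_on' with
  | add p q hp hq =>
    obtain ⟨K1, h1, hK1⟩ := hp
    obtain ⟨K2, h2, hK2⟩ := hq
    refine ⟨K1 + K2, by positivity, fun t => ?_⟩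
    rw [eval_add, add_mul, add_mul]
    exact (abs_add_le _ _).trans (add_le_add (hK1 t) (hK2 t))
  | monomial n a =>
    refine ⟨|a| * n.factorial * Real.exp (1 / c), by positivity, fun t => ?_⟩
    rw [eval_monomial, abs_mul, abs_mul, abs_pow, abs_of_pos (Real.exp_pos _)]
    have h1 : |t| ^ n ≤ n.factorial * Real.exp |t| := by
      have := Real.pow_div_factorial_le_exp |t| (abs_nonneg t) n
      rw [div_le_iff₀ (by positivity)] at this
      linarith
    have h2 : Real.exp |t| * Real.exp (-c * t ^ 2) ≤ Real.exp (1 / c) * Real.exp (-|t|) := by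
      rw [← Real.exp_add, ← Real.exp_add]
      apply Real.exp_le_exp.mpr
      have h3 : t ^ 2 = |t| ^ 2 := (sq_abs t).symm
      rw [h3]
      have h4 : 0 ≤ (c * |t| - 1) ^ 2 / c := by positivity
      have h5 : (c * |t| - 1) ^ 2 / c = c * |t| ^ 2 - 2 * |t| + 1 / c := by
        field_simp
        ring
      linarith
    calc |a| * |t| ^ n * Real.exp (-c * t ^ 2)
        ≤ |a| * (n.factorial * Real.exp |t|) * Real.exp (-c * t ^ 2) := by gcongr
      _ = |a| * n.factorial * (Real.exp |t| * Real.exp (-c * t ^ 2)) := by ring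
      _ ≤ |a| * n.factorial * (Real.exp (1 / c) * Real.exp (-|t|)) := by gcongr
      _ = _ := by ring

lemma hasDerivAt_poly_gauss (P : ℝ[X]) (c t : ℝ) :
    HasDerivAt (fun s : ℝ => P.eval s * Real.exp (-c * s ^ 2))
      ((derivative P - C (2 * c) * X * P).eval t * Real.exp (-c * t ^ 2)) t := by
  have h1 : HasDerivAt (fun s : ℝ => -c * s ^ 2) (-c * (2 * t)) t := by
    simpa using (hasDerivAt_pow 2 t).const_mul (-c)
  have h2 := (P.hasDerivAt t).mul h1.exp
  refine h2.congr_deriv ?_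
  simp only [eval_sub, eval_mul, eval_C, eval_X]
  ring

lemma iteratedDeriv_gauss (c : ℝ) (n : ℕ) :
    ∃ P : ℝ[X], iteratedDeriv n (fun s : ℝ => Real.exp (-c * s ^ 2)) =
      fun t => P.eval t * Real.exp (-c * t ^ 2) := by
  induction n with
  | zero => exact ⟨1, by ext t; simp⟩
  | succ n ih =>
    obtain ⟨P, hP⟩ := ih
    refine ⟨derivative P - C (2 * c) * X * P, ?_⟩
    rw [iteratedDeriv_succ, hP]
    ext t
    exact (hasDerivAt_poly_gauss P c t).deriv

lemma exists_far {F : ℝ → ℝ} {K : ℝ} (hF : ∀ t, |F t| ≤ K * Real.exp (-|t|)) {η : ℝ}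
    (hη : 0 < η) (t0 : ℝ) : (∃ s, s < t0 ∧ |F s| < η) ∧ (∃ s, t0 < s ∧ |F s| < η) := by
  have h1 : Filter.Tendsto (fun s : ℝ => K * Real.exp (-s)) Filter.atTop (nhds 0) := by
    simpa using Real.tendsto_exp_neg_atTop_nhds_zero.const_mul K
  have h2 := (h1.eventually (gt_mem_nhds hη)).and (Filter.eventually_gt_atTop |t0|)
  obtain ⟨s, hs1, hs2⟩ := h2.exists
  have hs0 : 0 ≤ s := (abs_nonneg t0).trans hs2.le
  constructor
  · refine ⟨-s, by have := neg_abs_le t0; linarith, ?_⟩
    have := hF (-s)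
    rw [abs_neg, abs_of_nonneg hs0] at this
    linarith
  · refine ⟨s, by have := le_abs_self t0; linarith, ?_⟩
    have := hF s
    rw [abs_of_nonneg hs0] at this
    linarith

lemma alternation {c : ℝ} (hc : 0 < c) (n : ℕ) :
    ∃ t : ℕ → ℝ, (∀ i < n, t i < t (i + 1)) ∧
      ∀ i ≤ n, 0 < (-1) ^ i * iteratedDeriv n (fun s : ℝ => Real.exp (-c * s ^ 2)) (t i) := by
  induction n with
  | zero =>
    refine ⟨fun _ => 0, by simp, fun i hi => ?_⟩
    obtain rfl : i = 0 := by omega
    simp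
  | succ n ih =>
    obtain ⟨t, ht1, ht2⟩ := ih
    obtain ⟨P, hP⟩ := iteratedDeriv_gauss c n
    obtain ⟨K, -, hK⟩ := poly_gauss_decay P hc
    rw [iteratedDeriv_succ]
    rw [hP] at ht2 ⊢
    set F : ℝ → ℝ := fun t => P.eval t * Real.exp (-c * t ^ 2) with hF
    have hd : Differentiable ℝ F := fun s => (hasDerivAt_poly_gauss P c s).differentiableAt
    have h0 : 0 < F (t 0) := by simpa using ht2 0 (Nat.zero_le n)
    have hn : 0 < (-1) ^ n * F (t n) := ht2 n le_rfl
    obtain ⟨l, hl1, hl2⟩ := (exists_far (F := F) hK h0 (t 0)).1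
    obtain ⟨r, hr1, hr2⟩ := (exists_far (F := F) hK hn (t n)).2
    -- the points with the two sentinels
    let u : ℕ → ℝ := fun i => if i = 0 then l else if i ≤ n + 1 then t (i - 1) else r
    have hu : ∀ i ≤ n + 1, u i < u (i + 1) ∧ 0 < (-1) ^ i * (F (u (i + 1)) - F (u i)) := by
      intro i hi
      rcases Nat.eq_zero_or_pos i with rfl | hi0
      · have e1 : u 0 = l := by simp [u]
        have e2 : u (0 + 1) = t 0 := by simp [u]
        rw [e1, e2]
        refine ⟨hl1, ?_⟩
        have := le_abs_self (F l)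
        simp only [pow_zero, one_mul]
        linarith
      · obtain ⟨j, rfl⟩ : ∃ j, i = j + 1 := ⟨i - 1, by omega⟩
        rcases Nat.lt_or_ge j n with hj | hj
        · have e1 : u (j + 1) = t j := by simp [u, hj.le]
          have e2 : u (j + 1 + 1) = t (j + 1) := by
            have : j + 1 + 1 ≤ n + 1 := by omega
            simp only [u]
            rw [if_neg (by omega), if_pos this]
            rfl
          rw [e1, e2]
          refine ⟨ht1 j hj, ?_⟩
          have a1 := ht2 j hj.le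
          have a2 := ht2 (j + 1) hj
          have : (-1 : ℝ) ^ (j + 1) * (F (t (j + 1)) - F (t j)) =
              (-1) ^ (j + 1) * F (t (j + 1)) + (-1) ^ j * F (t j) := by ring
          rw [this]
          exact add_pos a2 a1
        · obtain rfl : j = n := by omega
          have e1 : u (j + 1) = t j := by simp [u]
          have e2 : u (j + 1 + 1) = r := by simp [u]
          rw [e1, e2]
          refine ⟨hr1, ?_⟩
          have : (-1 : ℝ) ^ (j + 1) * (F r - F (t j)) =
              (-1) ^ j * F (t j) - (-1) ^ j * F r := by ring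
          rw [this]
          have h3 : (-1 : ℝ) ^ j * F r ≤ |F r| := by
            have := le_abs_self ((-1 : ℝ) ^ j * F r)
            rwa [abs_mul, abs_pow, abs_neg, abs_one, one_pow, one_mul] at this
          linarith
    have hs : ∀ i, ∃ s : ℝ, i ≤ n + 1 → u i < s ∧ s < u (i + 1) ∧ 0 < (-1) ^ i * deriv F s := by
      intro i
      by_cases hi : i ≤ n + 1
      · obtain ⟨h1, h2⟩ := hu i hi
        obtain ⟨s, hs1, hs2⟩ := exists_deriv_eq_slope F h1 hd.continuous.continuousOn
          hd.differentiableOn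
        refine ⟨s, fun _ => ⟨hs1.1, hs1.2, ?_⟩⟩
        rw [hs2, ← mul_div_assoc]
        exact div_pos h2 (sub_pos.mpr h1)
      · exact ⟨0, fun h => absurd h hi⟩
    choose s hs using hs
    refine ⟨s, fun i hi => ?_, fun i hi => (hs i hi).2.2⟩
    exact (hs i hi.le).2.1.trans (hs (i + 1) hi).1

/-- The properties of a nonzero multiple of `exp (π t ^ 2)` times the `n`-th derivative of
`exp (-2 π t ^ 2)` that are used later. -/
lemma hermite_props (n : ℕ) {C0 : ℝ} (hC : 0 < C0) (h : ℝ → ℝ)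
    (hh : ∀ t, h t = (-1) ^ n * C0 * Real.exp (Real.pi * t ^ 2) *
      iteratedDeriv n (fun s : ℝ => Real.exp (-2 * Real.pi * s ^ 2)) t) :
    Continuous h ∧ (∃ K : ℝ, 0 ≤ K ∧ ∀ t, |h t| ≤ K * Real.exp (-|t|)) ∧
      (∀ t, h (-t) = (-1) ^ n * h t) ∧
      ∃ t : ℕ → ℝ, (∀ i < n, t i < t (i + 1)) ∧ ∀ i ≤ n, 0 < (-1) ^ (n + i) * h (t i) := by
  have hpi := Real.pi_pos
  have e : (fun s : ℝ => Real.exp (-2 * Real.pi * s ^ 2)) =
      fun s : ℝ => Real.exp (-(2 * Real.pi) * s ^ 2) := by
    ext s; congr 1; ring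
  obtain ⟨P, hP⟩ := iteratedDeriv_gauss (2 * Real.pi) n
  have hform : ∀ t, h t = (C ((-1) ^ n * C0) * P).eval t * Real.exp (-Real.pi * t ^ 2) := by
    intro t
    rw [hh, e, hP]
    simp only [eval_mul, eval_C]
    have : Real.exp (-Real.pi * t ^ 2) =
        Real.exp (Real.pi * t ^ 2) * Real.exp (-(2 * Real.pi) * t ^ 2) := by
      rw [← Real.exp_add]; congr 1; ring
    rw [this]; ring
  refine ⟨?_, ?_, ?_, ?_⟩
  · have : h = fun t => (C ((-1) ^ n * C0) * P).eval t * Real.exp (-Real.pi * t ^ 2) :=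
      funext hform
    rw [this]
    exact (Polynomial.continuous _).mul (by fun_prop)
  · obtain ⟨K, hK0, hK⟩ := poly_gauss_decay (C ((-1) ^ n * C0) * P) hpi
    exact ⟨K, hK0, fun t => by rw [hform]; exact hK t⟩
  · intro t
    have h1 := iteratedDeriv_comp_neg n (fun s : ℝ => Real.exp (-2 * Real.pi * s ^ 2)) (-t)
    simp only [neg_sq, neg_neg, smul_eq_mul] at h1
    rw [hh, hh, h1, neg_sq]
    ring
  · obtain ⟨t, ht1, ht2⟩ := alternation (c := 2 * Real.pi) (by positivity) n
    refine ⟨t, ht1, fun i hi => ?_⟩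
    rw [hh, e]
    have := ht2 i hi
    have h2 : ((-1 : ℝ) ^ n) * (-1) ^ n = 1 := by
      rw [← mul_pow]; simp
    have h3 : (-1 : ℝ) ^ (n + i) * ((-1) ^ n * C0 * Real.exp (Real.pi * t i ^ 2) *
        iteratedDeriv n (fun s : ℝ => Real.exp (-(2 * Real.pi) * s ^ 2)) (t i)) =
        ((-1) ^ n * (-1) ^ n) * (C0 * Real.exp (Real.pi * t i ^ 2)) *
        ((-1) ^ i * iteratedDeriv n (fun s : ℝ => Real.exp (-(2 * Real.pi) * s ^ 2)) (t i)) := by
      ring
    rw [h3, h2, one_mul]
    positivity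

end Pool.Agent.MP_bef260_an.H31
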