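import Mathlib
import Pool.Agent.MP_bef260_an.H31.Main

/-! The configuration of `2 n + 1` cosets, with its periodic structure made explicit. -/

open Filter Topology MeasureTheory
open scoped ENNReal

namespace Pool.Agent.MP_bef260_an.H31

theorem exists_periodic (n : ℕ) {h : ℝ → ℝ} (hc : Continuous h) {K : ℝ} (hK0 : 0 ≤ K)
    (hK : ∀ t, |h t| ≤ K * Real.exp (-|t|)) (hpar : ∀ t, h (-t) = (-1) ^ n * h t)
    {t : ℕ → ℝ} (ht1 : ∀ i < n, t i < t (i + 1))
    (ht2 : ∀ i ≤ n, 0 < (-1) ^ (n + i) * h (t i)) :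
    ∃ (a : ℝ) (z : Fin (2 * n + 1) → EuclideanSpace ℝ (Fin 2)) (Γ : Set (EuclideanSpace ℝ (Fin 2))),
      0 < a ∧ Γ = {γ | ∃ (m : Fin (2 * n + 1)) (j l : ℤ),
        γ 0 = z m 0 + a * j ∧ γ 1 = z m 1 + a⁻¹ * l} ∧
      (∀ (m m' : Fin (2 * n + 1)) (j l : ℤ),
        z m 0 = z m' 0 + a * j → z m 1 = z m' 1 + a⁻¹ * l → m = m') ∧
      (∃ δ : ℝ, 0 < δ ∧ ∀ γ ∈ Γ, ∀ γ' ∈ Γ, γ ≠ γ' → δ ≤ dist γ γ') ∧
      (2 * n + 1 : ℝ≥0∞) ≤ liminf (fun R : ℝ => ⨅ z : EuclideanSpace ℝ (Fin 2),
        ((Γ ∩ Metric.ball z R).encard : ℝ≥0∞) / volume (Metric.ball z R)) atTop ∧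
      ∀ A : ℝ, 0 < A → ∃ f : ℝ → ℂ, MemLp f 2 volume ∧
        ∑' γ : Γ, ENNReal.ofReal (‖∫ t : ℝ, f t * (starRingEnd ℂ)
          (Complex.exp (2 * Real.pi * Complex.I * (γ.1 1 : ℝ) * t) * (h (t - γ.1 0) : ℂ))‖ ^ 2) <
        ENNReal.ofReal (A * ∫ t, ‖f t‖ ^ 2) := by
  obtain ⟨a, ha1, ha2⟩ := ((zak_zeros hc hK0 hK n ht1 ht2).and
    (eventually_gt_atTop (2 * (|t 0| + |t n|)))).exists
  have ha : 0 < a := lt_of_le_of_lt (by positivity) ha2
  have hmono : ∀ j ≤ n, ∀ i ≤ j, t i ≤ t j := by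
    intro j hj
    induction j with
    | zero => intro i hi; obtain rfl : i = 0 := by omega
              exact le_rfl
    | succ j ih =>
      intro i hi
      rcases hi.eq_or_lt with rfl | hi
      · exact le_rfl
      · exact (ih (by omega) i (by omega)).trans (ht1 j (by omega)).le
  have hY : ∀ p : Fin n × Bool, ∃ y ∈ Set.Ioo (t p.1) (t (p.1 + 1)),
      ∑' k : ℤ, sgn p.2 k * h (y + a * k) = 0 := fun p =>
    ha1 (sgn p.2) (fun k => ((sign_props (exp_th p.2)).1 k).le) (sgn_zero _) p.1 p.1.2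
  choose Y hY1 hY2 using hY
  let y : Option (Fin n × Bool) → ℝ := fun m => m.elim (a / 2) Y
  let b : Option (Fin n × Bool) → Bool := fun m => m.elim (decide (Even n)) Prod.snd
  have hYlt : ∀ p, Y p < a / 2 := by
    intro p
    have h1 := (hY1 p).2
    have h2 := hmono n le_rfl (p.1 + 1) p.1.2
    have h3 := le_abs_self (t n)
    have h4 := abs_nonneg (t 0)
    linarith
  have hYgt : ∀ p, -(a / 2) < Y p := by
    intro p
    have h1 := (hY1 p).1
    have h2 := hmono p.1 p.1.2.le 0 (Nat.zero_le _)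
    have h3 := neg_abs_le (t 0)
    have h4 := abs_nonneg (t n)
    linarith
  have hy1 : ∀ m, y m ≤ a / 2 := by
    rintro (_ | p)
    · exact le_rfl
    · exact (hYlt p).le
  have hy2 : ∀ m, -(a / 2) < y m := by
    rintro (_ | p)
    · show -(a / 2) < a / 2
      linarith
    · exact hYgt p
  have hYinj : ∀ p q : Fin n × Bool, (p.1 : ℕ) < q.1 → Y p < Y q := by
    intro p q hpq
    exact (hY1 p).2.trans_le ((hmono q.1 q.1.2.le _ hpq).trans (hY1 q).1.le)
  have hyinj : ∀ m m', y m = y m' → b m = b m' → m = m' := by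
    rintro (_ | p) (_ | q) h1 h2
    · rfl
    · exact absurd h1 (hYlt q).ne'
    · exact absurd h1 (hYlt p).ne
    · congr 1
      refine Prod.ext (Fin.ext ?_) h2
      rcases lt_trichotomy (p.1 : ℕ) q.1 with h3 | h3 | h3
      · exact absurd h1 (hYinj p q h3).ne
      · exact h3
      · exact absurd h1 (hYinj q p h3).ne'
  have hZ : ∀ m, ∑' k : ℤ, sgn (b m) k * h (y m + a * k) = 0 := by
    rintro (_ | p)
    · exact zak_parity hpar (sgn_parity n) a
    · exact hY2 p
  let u : Option (Fin n × Bool) → ℝ := fun m => -y m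
  let v : Option (Fin n × Bool) → ℝ := fun m => th (b m) / a
  have hv : ∀ p : Option (Fin n × Bool) × ℤ × ℤ, pt u v a p 1 = (th (b p.1) + p.2.2) / a := by
    intro p
    rw [pt_one]
    simp only [v]
    field_simp
  have hinj : Function.Injective (pt u v a) := by
    rintro ⟨m, j, l⟩ ⟨m', j', l'⟩ hp
    have h0 : pt u v a (m, j, l) 0 = pt u v a (m', j', l') 0 := by rw [hp]
    have h1 : pt u v a (m, j, l) 1 = pt u v a (m', j', l') 1 := by rw [hp]
    rw [hv, hv, div_left_inj' ha.ne'] at h1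
    obtain ⟨hb, hl⟩ := th_inj h1
    rw [pt_zero, pt_zero] at h0
    simp only [u] at h0 hb hl
    have hj : j = j' := by
      have a1 := hy1 m
      have a2 := hy2 m
      have a3 := hy1 m'
      have a4 := hy2 m'
      have a5 : a * ((j - j' : ℤ) : ℝ) < a * 1 := by push_cast; linarith
      have a6 : a * (-1) < a * ((j - j' : ℤ) : ℝ) := by push_cast; linarith
      have a7 : j - j' < 1 := by exact_mod_cast lt_of_mul_lt_mul_left a5 ha.le
      have a8 : -1 < j - j' := by exact_mod_cast lt_of_mul_lt_mul_left a6 ha.le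
      omega
    subst hj hl
    have : m = m' := hyinj m m' (by linarith) hb
    rw [this]
  have hcard : Fintype.card (Option (Fin n × Bool)) = 2 * n + 1 := by simp [mul_comm]
  let e : Fin (2 * n + 1) ≃ Option (Fin n × Bool) := (Fintype.equivFinOfCardEq hcard).symm
  refine ⟨a, fun m => pt u v a (e m, 0, 0), Set.range (pt u v a), ha, ?_, ?_,
    pt_separated u v ha, ?_, fun A hA => ?_⟩
  · ext γ
    simp only [pt_zero, pt_one, Int.cast_zero, mul_zero, add_zero, Set.mem_range,
      Set.mem_ofPred_eq]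
    constructor
    · rintro ⟨⟨m, j, l⟩, rfl⟩
      exact ⟨e.symm m, j, l, by rw [e.apply_symm_apply, pt_zero], by
        rw [e.apply_symm_apply, pt_one]⟩
    · rintro ⟨m, j, l, h0, h1⟩
      refine ⟨(e m, j, l), ?_⟩
      ext i
      fin_cases i
      · exact h0.symm
      · exact h1.symm
  · intro m m' j l h0 h1
    have : pt u v a (e m, 0, 0) = pt u v a (e m', j, l) := by
      ext i
      fin_cases i
      · simpa [pt_zero] using h0
      · simpa [pt_one] using h1
    exact e.injective (congrArg Prod.fst (hinj this))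
  · have := pt_density u v ha hinj
    simp only [Fintype.card_option, Fintype.card_prod, Fintype.card_fin, Fintype.card_bool] at this
    push_cast at this
    rwa [mul_comm] at this
  · obtain ⟨f, hf1, hf2⟩ := no_lower_bound hc hK0 hK ha y (fun m => th (b m))
      (fun m => sgn (b m)) (fun m => exp_th (b m)) hZ hA
    refine ⟨f, hf1, lt_of_le_of_lt ?_ hf2⟩
    refine (ENNReal.tsum_le_tsum_comp_of_surjective
      (Set.rangeFactorization_surjective (f := pt u v a)) _).trans (le_of_eq ?_)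
    congr 1
    ext p
    simp only [Set.rangeFactorization_coe]
    rw [hv, pt_zero]

end Pool.Agent.MP_bef260_an.H31
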